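import Mathlib

/-! The flat convex function `u ↦ u exp (-1/u)` and its rescalings. -/

set_option autoImplicit false

namespace Pool.Agent.Helper14.PK

open Polynomial Set

/-- the polynomials in the derivatives -/
noncomputable def pj : ℕ → ℝ[X]
  | 0 => 1 + X
  | n + 1 => X ^ 2 * (pj n - derivative (pj n))

/-- `u exp (-1/u)` for `u > 0` and `0` for `u ≤ 0` -/
noncomputable def hfl (u : ℝ) : ℝ := u * expNegInvGlue u

/-- the `(n+1)`-st derivative of `hfl` -/
noncomputable def hder (n : ℕ) (u : ℝ) : ℝ := (pj n).eval u⁻¹ * expNegInvGlue u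

theorem hder_hasDerivAt (n : ℕ) (u : ℝ) : HasDerivAt (hder n) (hder (n + 1) u) u :=
  expNegInvGlue.hasDerivAt_polynomial_eval_inv_mul (pj n) u

theorem hfl_hasDerivAt (u : ℝ) : HasDerivAt hfl (hder 0 u) u := by
  have h1 := expNegInvGlue.hasDerivAt_polynomial_eval_inv_mul (1 : ℝ[X]) u
  simp only [eval_one, one_mul, derivative_one, sub_zero, mul_one, eval_pow, eval_X] at h1
  have h2 := (hasDerivAt_id u).mul h1
  have h3 : (1 : ℝ) * expNegInvGlue u + id u * (u⁻¹ ^ 2 * expNegInvGlue u) = hder 0 u := by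
    unfold hder pj
    simp only [id, eval_add, eval_one, eval_X]
    rcases eq_or_ne u 0 with rfl | hu
    · simp
    · field_simp
  rw [h3] at h2
  exact h2

theorem hfl_contDiff (n : ℕ∞) : ContDiff ℝ n hfl := contDiff_id.mul expNegInvGlue.contDiff

theorem hfl_nonpos {u : ℝ} (hu : u ≤ 0) : hfl u = 0 := by
  simp [hfl, expNegInvGlue.zero_of_nonpos hu]

theorem hder_nonpos (n : ℕ) {u : ℝ} (hu : u ≤ 0) : hder n u = 0 := by
  simp [hder, expNegInvGlue.zero_of_nonpos hu]

theorem hfl_nonneg (u : ℝ) : 0 ≤ hfl u := by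
  rcases le_total u 0 with h | h
  · rw [hfl_nonpos h]
  · exact mul_nonneg h (expNegInvGlue.nonneg u)

theorem glue_eq {u : ℝ} (hu : 0 < u) : expNegInvGlue u = Real.exp (-u⁻¹) := by
  simp [expNegInvGlue, not_le.2 hu]

theorem hfl_le {u : ℝ} (hu : 0 ≤ u) : hfl u ≤ u := by
  rcases eq_or_lt_of_le hu with rfl | h
  · simp [hfl]
  · unfold hfl
    rw [glue_eq h]
    have h1 : Real.exp (-u⁻¹) ≤ 1 := Real.exp_le_one_iff.2 (by simp [h.le])
    nlinarith

theorem sub_one_le_hfl (u : ℝ) : u - 1 ≤ hfl u := by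
  rcases le_or_gt u 0 with h | h
  · rw [hfl_nonpos h]; linarith
  · unfold hfl
    rw [glue_eq h]
    have h1 : 1 - u⁻¹ ≤ Real.exp (-u⁻¹) := by
      have := Real.add_one_le_exp (-u⁻¹)
      linarith
    have h2 : u * (1 - u⁻¹) ≤ u * Real.exp (-u⁻¹) := mul_le_mul_of_nonneg_left h1 h.le
    have h3 : u * (1 - u⁻¹) = u - 1 := by field_simp
    linarith

theorem hder_zero_nonneg (u : ℝ) : 0 ≤ hder 0 u := by
  rcases le_or_gt u 0 with h | h
  · rw [hder_nonpos 0 h]
  · unfold hder pj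
    simp only [eval_add, eval_one, eval_X]
    have := expNegInvGlue.nonneg u
    positivity

theorem hder_zero_le (u : ℝ) : hder 0 u ≤ 1 := by
  rcases le_or_gt u 0 with h | h
  · rw [hder_nonpos 0 h]; exact zero_le_one
  · unfold hder pj
    simp only [eval_add, eval_one, eval_X]
    rw [glue_eq h, Real.exp_neg]
    have h1 := Real.add_one_le_exp u⁻¹
    have h2 := Real.exp_pos u⁻¹
    rw [← div_eq_mul_inv, div_le_one h2]
    linarith

theorem hder_one_nonneg (u : ℝ) : 0 ≤ hder 1 u := by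
  rcases le_or_gt u 0 with h | h
  · rw [hder_nonpos 1 h]
  · unfold hder
    have h1 : (pj 1).eval u⁻¹ = (u⁻¹) ^ 3 := by
      simp [pj]
      ring
    rw [h1]
    have := expNegInvGlue.nonneg u
    positivity

theorem poly_bound (p : ℝ[X]) : ∃ C : ℝ, ∀ u : ℝ, |p.eval u⁻¹ * expNegInvGlue u| ≤ C := by
  induction p using Polynomial.induction_on' with
  | add p q hp hq =>
    obtain ⟨C, hC⟩ := hp
    obtain ⟨D, hD⟩ := hq
    refine ⟨C + D, fun u => ?_⟩
    rw [eval_add, add_mul]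
    exact (abs_add_le _ _).trans (add_le_add (hC u) (hD u))
  | monomial n a =>
    refine ⟨|a| * n.factorial, fun u => ?_⟩
    rcases le_or_gt u 0 with h | h
    · rw [expNegInvGlue.zero_of_nonpos h]
      simp only [mul_zero, abs_zero]
      positivity
    · rw [eval_monomial, glue_eq h, Real.exp_neg]
      have h0 : 0 < u⁻¹ := inv_pos.2 h
      have h1 := Real.pow_div_factorial_le_exp (u⁻¹) h0.le n
      have h2 := Real.exp_pos u⁻¹
      have h3 : (0 : ℝ) < n.factorial := by exact_mod_cast n.factorial_pos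
      rw [mul_assoc, abs_mul, ← div_eq_mul_inv,
        abs_of_nonneg (div_nonneg (pow_nonneg h0.le n) h2.le)]
      refine mul_le_mul_of_nonneg_left ?_ (abs_nonneg a)
      rw [div_le_iff₀ h2]
      rw [div_le_iff₀ h3] at h1
      linarith

theorem iteratedDeriv_hfl (n : ℕ) : iteratedDeriv (n + 1) hfl = hder n := by
  induction n with
  | zero =>
    rw [iteratedDeriv_one]
    funext u
    exact (hfl_hasDerivAt u).deriv
  | succ n ih =>
    rw [iteratedDeriv_succ, ih]
    funext u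
    exact (hder_hasDerivAt n u).deriv

/-! ### The rescaled function -/

/-- `γ(s) = η h(-s/η - 1)` -/
noncomputable def gam (η s : ℝ) : ℝ := η * hfl (-s / η - 1)

/-- its derivatives -/
noncomputable def gamD (η : ℝ) (n : ℕ) (s : ℝ) : ℝ :=
  η * (-η⁻¹) ^ (n + 1) * hder n (-s / η - 1)

theorem arg_hasDerivAt (η s : ℝ) : HasDerivAt (fun s : ℝ => -s / η - 1) (-η⁻¹) s := by
  have h1 := ((hasDerivAt_neg s).div_const η).sub_const 1
  have h2 : -1 / η = -η⁻¹ := by ring
  rw [h2] at h1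
  exact h1

theorem gam_hasDerivAt (η s : ℝ) : HasDerivAt (gam η) (gamD η 0 s) s := by
  have h1 := ((hfl_hasDerivAt (-s / η - 1)).comp s (arg_hasDerivAt η s)).const_mul η
  have h2 : η * (hder 0 (-s / η - 1) * -η⁻¹) = gamD η 0 s := by
    unfold gamD; ring
  rw [h2] at h1
  exact h1

theorem gamD_hasDerivAt (η : ℝ) (n : ℕ) (s : ℝ) : HasDerivAt (gamD η n) (gamD η (n + 1) s) s := by
  have h1 := ((hder_hasDerivAt n (-s / η - 1)).comp s (arg_hasDerivAt η s)).const_mul
    (η * (-η⁻¹) ^ (n + 1))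
  have h2 : η * (-η⁻¹) ^ (n + 1) * (hder (n + 1) (-s / η - 1) * -η⁻¹) = gamD η (n + 1) s := by
    unfold gamD; ring
  rw [h2] at h1
  exact h1

theorem iteratedDeriv_gam (η : ℝ) (n : ℕ) : iteratedDeriv (n + 1) (gam η) = gamD η n := by
  induction n with
  | zero =>
    rw [iteratedDeriv_one]
    funext s
    exact (gam_hasDerivAt η s).deriv
  | succ n ih =>
    rw [iteratedDeriv_succ, ih]
    funext s
    exact (gamD_hasDerivAt η n s).deriv

theorem gam_contDiff (η : ℝ) (n : ℕ∞) : ContDiff ℝ n (gam η) := by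
  unfold gam
  refine contDiff_const.mul ((hfl_contDiff n).comp ?_)
  exact (contDiff_neg.div_const η).sub contDiff_const

variable {η : ℝ}

theorem arg_nonpos (hη : 0 < η) {s : ℝ} (hs : -η ≤ s) : -s / η - 1 ≤ 0 := by
  rw [sub_nonpos, div_le_one hη]
  linarith

theorem gam_eq_zero (hη : 0 < η) {s : ℝ} (hs : -η ≤ s) : gam η s = 0 := by
  unfold gam
  rw [hfl_nonpos (arg_nonpos hη hs), mul_zero]

theorem gamD_eq_zero (hη : 0 < η) (n : ℕ) {s : ℝ} (hs : -η ≤ s) : gamD η n s = 0 := by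
  unfold gamD
  rw [hder_nonpos n (arg_nonpos hη hs), mul_zero]

theorem gam_nonneg (hη : 0 < η) (s : ℝ) : 0 ≤ gam η s :=
  mul_nonneg hη.le (hfl_nonneg _)

theorem neg_sub_le_gam (hη : 0 < η) (s : ℝ) : -s - 2 * η ≤ gam η s := by
  unfold gam
  have h1 := mul_le_mul_of_nonneg_left (sub_one_le_hfl (-s / η - 1)) hη.le
  have h2 : η * (-s / η - 1 - 1) = -s - 2 * η := by field_simp; ring
  linarith

theorem gam_le_abs (hη : 0 < η) (s : ℝ) : gam η s ≤ |s| := by
  rcases le_or_gt (-η) s with h | h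
  · rw [gam_eq_zero hη h]; exact abs_nonneg s
  · unfold gam
    have h0 : 0 ≤ -s / η - 1 := by
      rw [sub_nonneg, le_div_iff₀ hη]; linarith
    have h1 := mul_le_mul_of_nonneg_left (hfl_le h0) hη.le
    have h2 : η * (-s / η - 1) = -s - η := by field_simp
    have h3 := neg_le_abs s
    linarith

theorem gamD_zero_nonpos (hη : 0 < η) (s : ℝ) : gamD η 0 s ≤ 0 := by
  unfold gamD
  have h1 := hder_zero_nonneg (-s / η - 1)
  have h2 : η * (-η⁻¹) ^ (0 + 1) = -1 := by
    rw [zero_add, pow_one]; field_simp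
  rw [h2]; linarith

theorem neg_one_le_gamD_zero (hη : 0 < η) (s : ℝ) : -1 ≤ gamD η 0 s := by
  unfold gamD
  have h1 := hder_zero_le (-s / η - 1)
  have h2 : η * (-η⁻¹) ^ (0 + 1) = -1 := by
    rw [zero_add, pow_one]; field_simp
  rw [h2]; linarith

theorem gamD_one_nonneg (hη : 0 < η) (s : ℝ) : 0 ≤ gamD η 1 s := by
  unfold gamD
  have h1 := hder_one_nonneg (-s / η - 1)
  have h2 : η * (-η⁻¹) ^ (1 + 1) = η * (η⁻¹) ^ 2 := by ring
  rw [h2]
  positivity

/-- all derivatives of `γ` vanish on `[-η, ∞)` -/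
theorem iteratedFDeriv_gam_eq_zero (hη : 0 < η) (n : ℕ) {s : ℝ} (hs : -η ≤ s) :
    ‖iteratedFDeriv ℝ n (gam η) s‖ = 0 := by
  rw [norm_iteratedFDeriv_eq_norm_iteratedDeriv]
  cases n with
  | zero => rw [iteratedDeriv_zero, gam_eq_zero hη hs, norm_zero]
  | succ n => rw [iteratedDeriv_gam, gamD_eq_zero hη n hs, norm_zero]

/-- bounds for the derivatives of `γ`, with universal constants -/
theorem iteratedFDeriv_gam_bound : ∃ C : ℕ → ℝ, (∀ n, 1 ≤ C n) ∧ ∀ (n : ℕ) (η s : ℝ), 0 < η →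
    ‖iteratedFDeriv ℝ (n + 1) (gam η) s‖ ≤ C n * (η⁻¹) ^ n := by
  choose C hC using fun n : ℕ => poly_bound (pj n)
  refine ⟨fun n => max 1 (C n), fun n => le_max_left _ _, fun n η s hη => ?_⟩
  rw [norm_iteratedFDeriv_eq_norm_iteratedDeriv, iteratedDeriv_gam]
  unfold gamD
  have h1 : |hder n (-s / η - 1)| ≤ max 1 (C n) := (hC n _).trans (le_max_right _ _)
  have h2 : |η * (-η⁻¹) ^ (n + 1)| = (η⁻¹) ^ n := by
    rw [abs_mul, abs_pow, abs_neg, abs_of_pos hη, abs_of_pos (inv_pos.2 hη), pow_succ]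
    field_simp
  rw [Real.norm_eq_abs, abs_mul, h2, mul_comm]
  exact mul_le_mul_of_nonneg_right h1 (by positivity)

end Pool.Agent.Helper14.PK
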