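import Mathlib
import Pool.Agent.Helper14.PK.Flat

/-! Bounds for the derivatives of the correction term. -/

set_option autoImplicit false

namespace Pool.Agent.Helper14.PK

open Set Filter Topology
open scoped Nat ContDiff

variable {G : Type*} [NormedAddCommGroup G] [NormedSpace ℝ G]

theorem desc_le (m k : ℕ) : m.descFactorial k ≤ m ! := by
  rcases le_or_gt k m with h | h
  · have h1 := Nat.factorial_mul_descFactorial h
    have h2 : 1 ≤ (m - k)! := Nat.one_le_iff_ne_zero.2 (Nat.factorial_ne_zero _)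
    nlinarith [Nat.zero_le (m.descFactorial k)]
  · rw [Nat.descFactorial_eq_zero_iff_lt.2 h]
    exact Nat.zero_le _

/-- the diagonal map -/
noncomputable def dg (m : ℕ) (G : Type*) [NormedAddCommGroup G] [NormedSpace ℝ G] :
    G →L[ℝ] (Fin m → G) := ContinuousLinearMap.pi fun _ => ContinuousLinearMap.id ℝ G

theorem dg_norm (m : ℕ) : ‖dg m G‖ ≤ 1 := by
  refine ContinuousLinearMap.opNorm_le_bound _ zero_le_one fun x => ?_
  rw [one_mul]
  refine (pi_norm_le_iff_of_nonneg (norm_nonneg x)).2 fun i => ?_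
  simp [dg]

theorem diag_contDiff {m : ℕ} (L : ContinuousMultilinearMap ℝ (fun _ : Fin m => G) ℝ)
    {n : WithTop ℕ∞} : ContDiff ℝ n (fun x : G => L fun _ => x) := by
  exact L.contDiff.comp (dg m G).contDiff

/-- derivatives of a homogeneous polynomial -/
theorem diag_bound {m : ℕ} (L : ContinuousMultilinearMap ℝ (fun _ : Fin m => G) ℝ) (x : G)
    (k : ℕ) : ‖iteratedFDeriv ℝ k (fun x : G => L fun _ => x) x‖ ≤
      m.descFactorial k * ‖L‖ * ‖x‖ ^ (m - k) := by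
  have h1 : (fun x : G => L fun _ => x) = (fun z : Fin m → G => L z) ∘ dg m G := rfl
  rw [h1, ContinuousLinearMap.iteratedFDeriv_comp_right (dg m G)
    (L.contDiff (n := (k : WithTop ℕ∞))) x (i := k) le_rfl]
  refine (ContinuousMultilinearMap.norm_compContinuousLinearMap_le _ _).trans ?_
  have h2 : ∏ _i : Fin k, ‖dg m G‖ ≤ 1 := by
    refine Finset.prod_le_one (fun i _ => norm_nonneg _) (fun i _ => dg_norm m)
  have h3 := ContinuousMultilinearMap.norm_iteratedFDeriv_le L k (dg m G x)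
  rw [Fintype.card_fin] at h3
  have h4 : ‖dg m G x‖ ≤ ‖x‖ := by
    have := (dg m G).le_opNorm x
    have h5 := dg_norm (G := G) m
    nlinarith [norm_nonneg x]
  calc ‖iteratedFDeriv ℝ k (fun z : Fin m → G => L z) (dg m G x)‖ * ∏ _i : Fin k, ‖dg m G‖
      ≤ ‖iteratedFDeriv ℝ k (fun z : Fin m → G => L z) (dg m G x)‖ * 1 :=
        mul_le_mul_of_nonneg_left h2 (norm_nonneg _)
    _ ≤ m.descFactorial k * ‖L‖ * ‖dg m G x‖ ^ (m - k) := by rw [mul_one]; exact h3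
    _ ≤ _ := by gcongr

theorem diag_bound_one {m : ℕ} (L : ContinuousMultilinearMap ℝ (fun _ : Fin m => G) ℝ) {x : G}
    (hx : ‖x‖ ≤ 1) (k : ℕ) : ‖iteratedFDeriv ℝ k (fun x : G => L fun _ => x) x‖ ≤
      (m ! : ℝ) * ‖L‖ := by
  refine (diag_bound L x k).trans ?_
  have h1 : (m.descFactorial k : ℝ) ≤ (m ! : ℝ) := by exact_mod_cast desc_le m k
  have h2 : ‖x‖ ^ (m - k) ≤ 1 := pow_le_one₀ (norm_nonneg _) hx
  have h3 : 0 ≤ (m.descFactorial k : ℝ) * ‖L‖ := by positivity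
  calc (m.descFactorial k : ℝ) * ‖L‖ * ‖x‖ ^ (m - k) ≤ (m.descFactorial k : ℝ) * ‖L‖ * 1 :=
        mul_le_mul_of_nonneg_left h2 h3
    _ ≤ _ := by rw [mul_one]; gcongr

/-- product rule with uniform bounds -/
theorem mul_bound {f g : G → ℝ} {n : ℕ} (hf : ContDiff ℝ (n : WithTop ℕ∞) f)
    (hg : ContDiff ℝ (n : WithTop ℕ∞) g) {x : G} {A B : ℝ} (hA : 0 ≤ A)
    (h1 : ∀ i ≤ n, ‖iteratedFDeriv ℝ i f x‖ ≤ A) (h2 : ∀ i ≤ n, ‖iteratedFDeriv ℝ i g x‖ ≤ B) :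
    ‖iteratedFDeriv ℝ n (fun y => f y * g y) x‖ ≤ 2 ^ n * A * B := by
  refine (norm_iteratedFDeriv_mul_le hf hg x le_rfl).trans ?_
  have h3 : ∑ i ∈ Finset.range (n + 1), (n.choose i : ℝ) * ‖iteratedFDeriv ℝ i f x‖ *
      ‖iteratedFDeriv ℝ (n - i) g x‖ ≤ ∑ i ∈ Finset.range (n + 1), (n.choose i : ℝ) * (A * B) := by
    refine Finset.sum_le_sum fun i hi => ?_
    have hi' : i ≤ n := Nat.lt_succ_iff.1 (Finset.mem_range.1 hi)
    rw [mul_assoc]
    refine mul_le_mul_of_nonneg_left ?_ (Nat.cast_nonneg _)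
    exact mul_le_mul (h1 i hi') (h2 _ (Nat.sub_le n i)) (norm_nonneg _) hA
  refine h3.trans (le_of_eq ?_)
  rw [← Finset.sum_mul]
  have h4 : ∑ i ∈ Finset.range (n + 1), (n.choose i : ℝ) = 2 ^ n := by
    exact_mod_cast Nat.sum_range_choose n
  rw [h4]; ring

/-- the constants of `iteratedFDeriv_gam_bound` -/
noncomputable def Cg : ℕ → ℝ := iteratedFDeriv_gam_bound.choose

theorem one_le_Cg (n : ℕ) : 1 ≤ Cg n := iteratedFDeriv_gam_bound.choose_spec.1 n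

theorem Cg_spec (n : ℕ) (η s : ℝ) (hη : 0 < η) :
    ‖iteratedFDeriv ℝ (n + 1) (gam η) s‖ ≤ Cg n * (η⁻¹) ^ n :=
  iteratedFDeriv_gam_bound.choose_spec.2 n η s hη

noncomputable def Kg (n : ℕ) : ℝ := 1 + ∑ i ∈ Finset.range n, Cg i

theorem one_le_Kg (n : ℕ) : 1 ≤ Kg n := by
  unfold Kg
  have : 0 ≤ ∑ i ∈ Finset.range n, Cg i :=
    Finset.sum_nonneg fun i _ => zero_le_one.trans (one_le_Cg i)
  linarith

theorem Cg_le_Kg {i n : ℕ} (hi : i < n) : Cg i ≤ Kg n := by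
  unfold Kg
  have := Finset.single_le_sum (f := Cg) (fun i _ => zero_le_one.trans (one_le_Cg i))
    (Finset.mem_range.2 hi)
  linarith

theorem gam_all {η S s : ℝ} (hη : 0 < η) (hη1 : η ≤ 1) (hS : 1 ≤ S) (hs : |s| ≤ S) {i n : ℕ}
    (hi : i ≤ n) : ‖iteratedFDeriv ℝ i (gam η) s‖ ≤ Kg n * S * (η⁻¹) ^ n := by
  have hinv : 1 ≤ η⁻¹ := (one_le_inv₀ hη).2 hη1
  have hK := one_le_Kg n
  cases i with
  | zero =>
    rw [norm_iteratedFDeriv_zero, Real.norm_eq_abs, abs_of_nonneg (gam_nonneg hη s)]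
    have h1 := (gam_le_abs hη s).trans hs
    have h2 : 1 ≤ (η⁻¹) ^ n := one_le_pow₀ hinv
    have h3 : S ≤ Kg n * S := by nlinarith
    have h4 : Kg n * S ≤ Kg n * S * (η⁻¹) ^ n := by
      have : 0 ≤ Kg n * S := by positivity
      nlinarith
    linarith
  | succ i =>
    refine (Cg_spec i η s hη).trans ?_
    have h1 := Cg_le_Kg (show i < n by omega)
    have h2 : (η⁻¹) ^ i ≤ (η⁻¹) ^ n := pow_le_pow_right₀ hinv (by omega)
    have h3 : Cg i ≤ Kg n * S := by nlinarith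
    have h4 : 0 ≤ Cg i := zero_le_one.trans (one_le_Cg i)
    have h5 : 0 ≤ (η⁻¹) ^ n := by positivity
    calc Cg i * (η⁻¹) ^ i ≤ Cg i * (η⁻¹) ^ n := mul_le_mul_of_nonneg_left h2 h4
      _ ≤ _ := mul_le_mul_of_nonneg_right h3 h5

section term

variable (e : G →L[ℝ] ℝ) (L : ContinuousMultilinearMap ℝ (fun _ : Fin 2 => G) ℝ) (η : ℝ)

/-- `(e x)^2 γ(L(x,x))` -/
noncomputable def term (x : G) : ℝ := (e x) ^ 2 * gam η (L fun _ => x)

theorem sq_eq (x : G) : (e x) ^ 2 =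
    ((ContinuousMultilinearMap.mkPiAlgebra ℝ (Fin 2) ℝ).compContinuousLinearMap fun _ => e)
      fun _ => x := by
  simp [ContinuousMultilinearMap.compContinuousLinearMap_apply, pow_two]

theorem sq_contDiff {n : WithTop ℕ∞} : ContDiff ℝ n (fun x : G => (e x) ^ 2) := e.contDiff.pow 2

theorem sq_bound {a : ℝ} (he : ‖e‖ ≤ a) {x : G} (hx : ‖x‖ ≤ 1) (k : ℕ) :
    ‖iteratedFDeriv ℝ k (fun x : G => (e x) ^ 2) x‖ ≤ 2 * a ^ 2 := by
  have h1 : (fun x : G => (e x) ^ 2) = fun x : G =>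
    ((ContinuousMultilinearMap.mkPiAlgebra ℝ (Fin 2) ℝ).compContinuousLinearMap fun _ => e)
      fun _ => x := funext (sq_eq e)
  rw [h1]
  refine (diag_bound_one _ hx k).trans ?_
  have h2 := ContinuousMultilinearMap.norm_compContinuousLinearMap_le
    (ContinuousMultilinearMap.mkPiAlgebra ℝ (Fin 2) ℝ) (fun _ => e)
  have h3 : ‖ContinuousMultilinearMap.mkPiAlgebra ℝ (Fin 2) ℝ‖ = 1 :=
    ContinuousMultilinearMap.norm_mkPiAlgebra
  rw [h3, one_mul] at h2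
  have h4 : ∏ _i : Fin 2, ‖e‖ ≤ a ^ 2 := by
    rw [Finset.prod_const, Finset.card_univ, Fintype.card_fin]
    exact pow_le_pow_left₀ (norm_nonneg _) he 2
  have h5 := h2.trans h4
  have h6 : ((2 ! : ℕ) : ℝ) = 2 := by norm_num [Nat.factorial]
  rw [h6]
  linarith

theorem term_contDiff (n : ℕ∞) : ContDiff ℝ n (term e L η) :=
  (sq_contDiff e).mul ((gam_contDiff η n).comp (diag_contDiff L))

variable {e L η}

theorem comp_bound {S : ℝ} (hη : 0 < η) (hη1 : η ≤ 1) (hS : 1 ≤ S) (hL : ‖L‖ ≤ S) {x : G}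
    (hx : ‖x‖ ≤ 1) {i n : ℕ} (hi : i ≤ n) :
    ‖iteratedFDeriv ℝ i (fun x : G => gam η (L fun _ => x)) x‖ ≤
      n ! * (Kg n * S * (η⁻¹) ^ n) * (2 * S) ^ n := by
  have hD : ∀ j, 1 ≤ j → j ≤ i → ‖iteratedFDeriv ℝ j (fun x : G => L fun _ => x) x‖ ≤
      (2 * S) ^ j := by
    intro j hj _
    refine (diag_bound_one L hx j).trans ?_
    have h6 : ((2 ! : ℕ) : ℝ) = 2 := by norm_num [Nat.factorial]
    rw [h6]
    have h7 : (2 * S) ^ 1 ≤ (2 * S) ^ j := pow_le_pow_right₀ (by linarith) hj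
    rw [pow_one] at h7
    linarith
  have hs : |L fun _ => x| ≤ S := by
    have h1 := L.le_opNorm fun _ => x
    rw [Finset.prod_const, Finset.card_univ, Fintype.card_fin] at h1
    have h2 : ‖x‖ ^ 2 ≤ 1 := pow_le_one₀ (norm_nonneg _) hx
    rw [Real.norm_eq_abs] at h1
    have h3 : ‖L‖ * ‖x‖ ^ 2 ≤ ‖L‖ * 1 := mul_le_mul_of_nonneg_left h2 (norm_nonneg _)
    linarith
  have h1 := norm_iteratedFDeriv_comp_le (g := gam η) (f := fun x : G => L fun _ => x) (n := i)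
    (N := (i : WithTop ℕ∞)) (by exact_mod_cast gam_contDiff η i) (diag_contDiff L) le_rfl x
    (C := Kg n * S * (η⁻¹) ^ n) (D := 2 * S)
    (fun j hj => gam_all hη hη1 hS hs (hj.trans hi)) hD
  refine (show ‖iteratedFDeriv ℝ i (fun x : G => gam η (L fun _ => x)) x‖ ≤ _ from h1).trans ?_
  have hK := one_le_Kg n
  have h2 : (i ! : ℝ) ≤ (n ! : ℝ) := by exact_mod_cast Nat.factorial_le hi
  have h3 : (2 * S) ^ i ≤ (2 * S) ^ n := pow_le_pow_right₀ (by linarith) hi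
  have h4 : 0 ≤ Kg n * S * (η⁻¹) ^ n := by positivity
  have h5 : (i ! : ℝ) * (Kg n * S * (η⁻¹) ^ n) ≤ (n ! : ℝ) * (Kg n * S * (η⁻¹) ^ n) :=
    mul_le_mul_of_nonneg_right h2 h4
  exact mul_le_mul h5 h3 (by positivity) (by positivity)

theorem comp_zero (hη : 0 < η) {x : G} (hx : -η ≤ L fun _ => x) (i : ℕ) :
    ‖iteratedFDeriv ℝ i (fun x : G => gam η (L fun _ => x)) x‖ ≤ 0 := by
  -- a bound for the derivatives of the inner function
  set D : ℝ := 1 + ∑ j ∈ Finset.range (i + 1), ‖iteratedFDeriv ℝ j (fun x : G => L fun _ => x) x‖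
    with hDdef
  have hD1 : 1 ≤ D := by
    rw [hDdef]
    have : 0 ≤ ∑ j ∈ Finset.range (i + 1), ‖iteratedFDeriv ℝ j (fun x : G => L fun _ => x) x‖ :=
      Finset.sum_nonneg fun _ _ => norm_nonneg _
    linarith
  have hD : ∀ j, 1 ≤ j → j ≤ i → ‖iteratedFDeriv ℝ j (fun x : G => L fun _ => x) x‖ ≤ D ^ j := by
    intro j hj hji
    have h1 := Finset.single_le_sum
      (f := fun j => ‖iteratedFDeriv ℝ j (fun x : G => L fun _ => x) x‖)
      (fun _ _ => norm_nonneg _) (Finset.mem_range.2 (Nat.lt_succ_of_le hji))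
    have h2 : D ^ 1 ≤ D ^ j := pow_le_pow_right₀ hD1 hj
    rw [pow_one] at h2
    have h3 : ‖iteratedFDeriv ℝ j (fun x : G => L fun _ => x) x‖ ≤
      ∑ j ∈ Finset.range (i + 1), ‖iteratedFDeriv ℝ j (fun x : G => L fun _ => x) x‖ := h1
    linarith
  have h1 := norm_iteratedFDeriv_comp_le (g := gam η) (f := fun x : G => L fun _ => x) (n := i)
    (N := (i : WithTop ℕ∞)) (by exact_mod_cast gam_contDiff η i) (diag_contDiff L) le_rfl x
    (C := 0) (D := D) (fun j _ => (iteratedFDeriv_gam_eq_zero hη j hx).le) hD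
  refine (show ‖iteratedFDeriv ℝ i (fun x : G => gam η (L fun _ => x)) x‖ ≤ _ from h1).trans ?_
  simp

/-- the constant for the term -/
noncomputable def Kt (n : ℕ) : ℝ := 2 ^ n * 2 * (n ! * Kg n) * 2 ^ n

theorem Kt_pos (n : ℕ) : 0 < Kt n := by
  unfold Kt
  have := one_le_Kg n
  positivity

theorem term_bound {a S : ℝ} (hη : 0 < η) (hη1 : η ≤ 1) (hS : 1 ≤ S) (he : ‖e‖ ≤ a)
    (hL : ‖L‖ ≤ S) {x : G} (hx : ‖x‖ ≤ 1) (n : ℕ) :
    ‖iteratedFDeriv ℝ n (term e L η) x‖ ≤ Kt n * a ^ 2 * S * (S / η) ^ n := by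
  have ha : 0 ≤ a := (norm_nonneg e).trans he
  have h1 := mul_bound (n := n) (sq_contDiff e)
    (show ContDiff ℝ (n : WithTop ℕ∞) (fun x : G => gam η (L fun _ => x)) from
      (by exact_mod_cast (gam_contDiff η n).comp (diag_contDiff L)))
    (x := x) (A := 2 * a ^ 2) (B := n ! * (Kg n * S * (η⁻¹) ^ n) * (2 * S) ^ n) (by positivity)
    (fun i _ => sq_bound e he hx i) (fun i hi => comp_bound hη hη1 hS hL hx hi)
  refine (show ‖iteratedFDeriv ℝ n (term e L η) x‖ ≤ _ from h1).trans (le_of_eq ?_)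
  unfold Kt
  rw [mul_pow, div_pow, inv_pow]
  field_simp

theorem term_zero (hη : 0 < η) {x : G} (hx : ‖x‖ ≤ 1) (hx' : -η ≤ L fun _ => x) (n : ℕ) :
    ‖iteratedFDeriv ℝ n (term e L η) x‖ ≤ 0 := by
  have h1 := mul_bound (n := n) (sq_contDiff e)
    (show ContDiff ℝ (n : WithTop ℕ∞) (fun x : G => gam η (L fun _ => x)) from
      (by exact_mod_cast (gam_contDiff η n).comp (diag_contDiff L)))
    (x := x) (A := 2 * ‖e‖ ^ 2) (B := 0) (by positivity)
    (fun i _ => sq_bound e le_rfl hx i) (fun i hi => comp_zero hη hx' i)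
  refine (show ‖iteratedFDeriv ℝ n (term e L η) x‖ ≤ _ from h1).trans ?_
  simp

end term

section sum

variable {Ω : Type*} [Fintype Ω] (e : Ω → G →L[ℝ] ℝ)
  (L : Ω → ContinuousMultilinearMap ℝ (fun _ : Fin 2 => G) ℝ) (η : ℝ)

/-- the average of the terms -/
noncomputable def Rs (x : G) : ℝ := ((Fintype.card Ω : ℝ))⁻¹ * ∑ w, term (e w) (L w) η x

theorem Rs_contDiff (n : ℕ∞) : ContDiff ℝ n (Rs e L η) :=
  contDiff_const.mul (ContDiff.sum fun w _ => term_contDiff (e w) (L w) η n)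

variable {e L η}

theorem Rs_bound [Nonempty Ω] {a S p : ℝ} (hη : 0 < η) (hη1 : η ≤ 1) (hS : 1 ≤ S) (he : ∀ w, ‖e w‖ ≤ a)
    (hL : ∀ w, ‖L w‖ ≤ S) {x : G} (hx : ‖x‖ ≤ 1)
    (hp : ((Finset.univ.filter fun w => L w (fun _ => x) < -η).card : ℝ) ≤
      p * Fintype.card Ω) (n : ℕ) :
    ‖iteratedFDeriv ℝ n (Rs e L η) x‖ ≤ p * (Kt n * a ^ 2 * S * (S / η) ^ n) := by
  classical
  set K : ℝ := Kt n * a ^ 2 * S * (S / η) ^ n with hK
  have hK0 : 0 ≤ K := by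
    have := (Kt_pos n).le
    positivity
  have hcard : (0 : ℝ) < Fintype.card Ω := by exact_mod_cast Fintype.card_pos
  have h1 : Rs e L η = ((Fintype.card Ω : ℝ))⁻¹ • fun x => ∑ w, term (e w) (L w) η x := by
    funext x; simp [Rs]
  have h2 : ContDiff ℝ (n : WithTop ℕ∞) (fun x => ∑ w, term (e w) (L w) η x) :=
    ContDiff.sum fun w _ => by exact_mod_cast term_contDiff (e w) (L w) η n
  rw [h1, iteratedFDeriv_const_smul_apply h2.contDiffAt, norm_smul, Real.norm_eq_abs,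
    abs_of_pos (inv_pos.2 hcard)]
  rw [iteratedFDeriv_fun_sum_apply
    (fun w _ => (show ContDiff ℝ (n : WithTop ℕ∞) (term (e w) (L w) η) from
      by exact_mod_cast term_contDiff (e w) (L w) η n).contDiffAt)]
  have h3 : ‖∑ w, iteratedFDeriv ℝ n (term (e w) (L w) η) x‖ ≤
      ∑ w, if L w (fun _ => x) < -η then K else 0 := by
    refine (norm_sum_le _ _).trans (Finset.sum_le_sum fun w _ => ?_)
    split_ifs with h
    · exact term_bound hη hη1 hS (he w) (hL w) hx n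
    · exact term_zero hη hx (not_lt.1 h) n
  have h4 : (∑ w, if L w (fun _ => x) < -η then K else 0) =
      ((Finset.univ.filter fun w => L w (fun _ => x) < -η).card : ℝ) * K := by
    rw [← Finset.sum_filter, Finset.sum_const, nsmul_eq_mul]
  rw [h4] at h3
  rw [inv_mul_le_iff₀ hcard]
  calc ‖∑ w, iteratedFDeriv ℝ n (term (e w) (L w) η) x‖ ≤ _ := h3
    _ ≤ (p * Fintype.card Ω) * K := mul_le_mul_of_nonneg_right hp hK0
    _ = _ := by ring

end sum

/-! ### The cut-off -/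

/-- a smooth cut-off on the line: `1` on `(-∞, 1/2]`, `0` on `[1, ∞)` -/
noncomputable def chi (s : ℝ) : ℝ := Real.smoothTransition (2 * (1 - s))

theorem chi_contDiff (n : ℕ∞) : ContDiff ℝ n chi :=
  Real.smoothTransition.contDiff.comp (contDiff_const.mul (contDiff_const.sub contDiff_id))

theorem chi_one {s : ℝ} (hs : s ≤ 1 / 2) : chi s = 1 :=
  Real.smoothTransition.one_of_one_le (by linarith)

theorem chi_zero {s : ℝ} (hs : 1 ≤ s) : chi s = 0 :=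
  Real.smoothTransition.zero_of_nonpos (by linarith)

theorem chi_nonneg (s : ℝ) : 0 ≤ chi s := Real.smoothTransition.nonneg _

theorem chi_le_one (s : ℝ) : chi s ≤ 1 := Real.smoothTransition.le_one _

theorem chi_bound : ∃ C : ℕ → ℝ, (∀ n, 1 ≤ C n) ∧ ∀ n, ∀ i ≤ n, ∀ s ∈ Icc (0 : ℝ) 1,
    ‖iteratedFDeriv ℝ i chi s‖ ≤ C n := by
  have h1 : ∀ i : ℕ, ∃ C : ℝ, ∀ s ∈ Icc (0 : ℝ) 1, ‖iteratedFDeriv ℝ i chi s‖ ≤ C := by
    intro i
    have hc : Continuous (iteratedFDeriv ℝ i chi) :=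
      (show ContDiff ℝ (i : WithTop ℕ∞) chi from by exact_mod_cast chi_contDiff i
        ).continuous_iteratedFDeriv le_rfl
    obtain ⟨C, hC⟩ := isCompact_Icc.exists_bound_of_continuousOn (s := Icc (0 : ℝ) 1)
      hc.continuousOn
    exact ⟨C, hC⟩
  choose C hC using h1
  refine ⟨fun n => 1 + ∑ i ∈ Finset.range (n + 1), |C i|, fun n => ?_, fun n i hi s hs => ?_⟩
  · have : 0 ≤ ∑ i ∈ Finset.range (n + 1), |C i| := Finset.sum_nonneg fun _ _ => abs_nonneg _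
    simp only; linarith
  · have h2 := Finset.single_le_sum (f := fun i => |C i|) (fun _ _ => abs_nonneg _)
      (Finset.mem_range.2 (Nat.lt_succ_of_le hi))
    have h3 := (hC i s hs).trans (le_abs_self _)
    have h4 : |C i| ≤ ∑ i ∈ Finset.range (n + 1), |C i| := h2
    simp only; linarith

noncomputable def Cc : ℕ → ℝ := chi_bound.choose

theorem one_le_Cc (n : ℕ) : 1 ≤ Cc n := chi_bound.choose_spec.1 n

theorem Cc_spec {n i : ℕ} (hi : i ≤ n) {s : ℝ} (hs : s ∈ Icc (0 : ℝ) 1) :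
    ‖iteratedFDeriv ℝ i chi s‖ ≤ Cc n := chi_bound.choose_spec.2 n i hi s hs

section cut

variable (Q : ContinuousMultilinearMap ℝ (fun _ : Fin 4 => G) ℝ)

theorem cut_contDiff (n : ℕ∞) : ContDiff ℝ n (fun x : G => chi (Q fun _ => x)) :=
  (chi_contDiff n).comp (diag_contDiff Q)

variable {Q}

theorem cut_bound (hQ : ‖Q‖ ≤ 1) (hQ' : ∀ x : G, Q (fun _ => x) = ‖x‖ ^ 4) {x : G}
    (hx : ‖x‖ ≤ 1) {i n : ℕ} (hi : i ≤ n) :
    ‖iteratedFDeriv ℝ i (fun x : G => chi (Q fun _ => x)) x‖ ≤ n ! * Cc n * 24 ^ n := by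
  have hD : ∀ j, 1 ≤ j → j ≤ i → ‖iteratedFDeriv ℝ j (fun x : G => Q fun _ => x) x‖ ≤
      (24 : ℝ) ^ j := by
    intro j hj _
    refine (diag_bound_one Q hx j).trans ?_
    have h6 : ((4 ! : ℕ) : ℝ) = 24 := by norm_num [Nat.factorial]
    rw [h6]
    have h7 : (24 : ℝ) ^ 1 ≤ (24 : ℝ) ^ j := pow_le_pow_right₀ (by norm_num) hj
    rw [pow_one] at h7
    linarith
  have hs : (Q fun _ => x) ∈ Icc (0 : ℝ) 1 := by
    rw [hQ']
    exact ⟨by positivity, pow_le_one₀ (norm_nonneg _) hx⟩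
  have h1 := norm_iteratedFDeriv_comp_le (g := chi) (f := fun x : G => Q fun _ => x) (n := i)
    (N := (i : WithTop ℕ∞)) (by exact_mod_cast chi_contDiff i) (diag_contDiff Q) le_rfl x
    (C := Cc n) (D := 24)
    (fun j hj => Cc_spec (hj.trans hi) hs) hD
  refine (show ‖iteratedFDeriv ℝ i (fun x : G => chi (Q fun _ => x)) x‖ ≤ _ from h1).trans ?_
  have hK := one_le_Cc n
  have h2 : (i ! : ℝ) ≤ (n ! : ℝ) := by exact_mod_cast Nat.factorial_le hi
  have h3 : (24 : ℝ) ^ i ≤ (24 : ℝ) ^ n := pow_le_pow_right₀ (by norm_num) hi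
  have h5 : (i ! : ℝ) * Cc n ≤ (n ! : ℝ) * Cc n :=
    mul_le_mul_of_nonneg_right h2 (by positivity)
  exact mul_le_mul h5 h3 (by positivity) (by positivity)

/-- multiplication by the cut-off -/
theorem cut_mul_bound (hQ : ‖Q‖ ≤ 1) (hQ' : ∀ x : G, Q (fun _ => x) = ‖x‖ ^ 4) {R : G → ℝ}
    {n : ℕ} (hR : ContDiff ℝ (n : WithTop ℕ∞) R) {B : ℝ} (hB : 0 ≤ B)
    (h : ∀ x : G, ‖x‖ ≤ 1 → ∀ i ≤ n, ‖iteratedFDeriv ℝ i R x‖ ≤ B) (x : G) :
    ‖iteratedFDeriv ℝ n (fun x : G => chi (Q fun _ => x) * R x) x‖ ≤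
      2 ^ n * (n ! * Cc n * 24 ^ n) * B := by
  have hK := one_le_Cc n
  rcases le_or_gt ‖x‖ 1 with hx | hx
  · exact mul_bound (by exact_mod_cast cut_contDiff Q n) hR (by positivity)
      (fun i hi => cut_bound hQ hQ' hx hi) (fun i hi => h x hx i hi)
  · have h1 : (fun x : G => chi (Q fun _ => x) * R x) =ᶠ[𝓝 x] fun _ => (0 : ℝ) := by
      have h2 : ∀ᶠ y in 𝓝 x, 1 < ‖y‖ := continuous_norm.continuousAt.eventually_const_lt hx
      filter_upwards [h2] with y hy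
      rw [hQ', chi_zero (one_le_pow₀ hy.le), zero_mul]
    rw [(Filter.EventuallyEq.iteratedFDeriv ℝ h1 n).eq_of_nhds]
    have h3 : ‖iteratedFDeriv ℝ n (fun _ : G => (0 : ℝ)) x‖ = 0 := by
      rw [iteratedFDeriv_fun_zero]; simp
    rw [h3]
    positivity

end cut

/-- the constant of the final bound -/
noncomputable def Kf (n : ℕ) : ℝ :=
  2 ^ n * (n ! * Cc n * 24 ^ n) * ∑ i ∈ Finset.range (n + 1), Kt i

theorem Kf_pos (n : ℕ) : 0 < Kf n := by
  unfold Kf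
  have h1 := one_le_Cc n
  have h2 : 0 < ∑ i ∈ Finset.range (n + 1), Kt i :=
    Finset.sum_pos (fun i _ => Kt_pos i) ⟨0, by simp⟩
  positivity

/-- The cut-off correction term is smooth and all its derivatives are small. -/
theorem final_bound {Ω : Type*} [Fintype Ω] [Nonempty Ω] {e : Ω → G →L[ℝ] ℝ}
    {L : Ω → ContinuousMultilinearMap ℝ (fun _ : Fin 2 => G) ℝ}
    {Q : ContinuousMultilinearMap ℝ (fun _ : Fin 4 => G) ℝ} {η a S p : ℝ}
    (hη : 0 < η) (hη1 : η ≤ 1) (hS : 1 ≤ S) (he : ∀ w, ‖e w‖ ≤ a) (hL : ∀ w, ‖L w‖ ≤ S)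
    (hQ : ‖Q‖ ≤ 1) (hQ' : ∀ x : G, Q (fun _ => x) = ‖x‖ ^ 4) (hp0 : 0 ≤ p)
    (hp : ∀ x : G, ‖x‖ ≤ 1 → ((Finset.univ.filter fun w => L w (fun _ => x) < -η).card : ℝ) ≤
      p * Fintype.card Ω) (n : ℕ) (x : G) :
    ‖iteratedFDeriv ℝ n (fun x : G => chi (Q fun _ => x) * Rs e L η x) x‖ ≤
      Kf n * (p * (a ^ 2 * S * (S / η) ^ n)) := by
  have hSη : 1 ≤ S / η := by rw [le_div_iff₀ hη]; linarith
  have h0 : ∀ i ≤ n, Kt i ≤ ∑ i ∈ Finset.range (n + 1), Kt i := fun i hi =>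
    Finset.single_le_sum (f := Kt) (fun j _ => (Kt_pos j).le)
      (Finset.mem_range.2 (Nat.lt_succ_of_le hi))
  have hsum : 0 ≤ ∑ i ∈ Finset.range (n + 1), Kt i := Finset.sum_nonneg fun j _ => (Kt_pos j).le
  have h1 := cut_mul_bound hQ hQ' (R := Rs e L η) (n := n)
    (by exact_mod_cast Rs_contDiff e L η n)
    (B := (∑ i ∈ Finset.range (n + 1), Kt i) * (p * (a ^ 2 * S * (S / η) ^ n)))
    (by positivity) (fun y hy i hi => by
      refine (Rs_bound hη hη1 hS he hL hy (hp y hy) i).trans ?_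
      have h2 : (S / η) ^ i ≤ (S / η) ^ n := pow_le_pow_right₀ hSη hi
      have h3 : a ^ 2 * S * (S / η) ^ i ≤ a ^ 2 * S * (S / η) ^ n :=
        mul_le_mul_of_nonneg_left h2 (by positivity)
      calc p * (Kt i * a ^ 2 * S * (S / η) ^ i) = Kt i * (p * (a ^ 2 * S * (S / η) ^ i)) := by ring
        _ ≤ (∑ i ∈ Finset.range (n + 1), Kt i) * (p * (a ^ 2 * S * (S / η) ^ n)) := by
          refine mul_le_mul (h0 i hi) (mul_le_mul_of_nonneg_left h3 hp0) (by positivity) hsum) x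
  refine h1.trans (le_of_eq ?_)
  unfold Kf
  ring

theorem final_contDiff {Ω : Type*} [Fintype Ω] (e : Ω → G →L[ℝ] ℝ)
    (L : Ω → ContinuousMultilinearMap ℝ (fun _ : Fin 2 => G) ℝ)
    (Q : ContinuousMultilinearMap ℝ (fun _ : Fin 4 => G) ℝ) (η : ℝ) (n : ℕ∞) :
    ContDiff ℝ n (fun x : G => chi (Q fun _ => x) * Rs e L η x) :=
  (cut_contDiff Q n).mul (Rs_contDiff e L η n)

end Pool.Agent.Helper14.PK
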