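import Mathlib
import Pool.Agent.Helper15.SR.Defs

/-! The gauge of a sublevel set of a `C^k` convex function is a `C^k` norm. -/

set_option autoImplicit false

namespace Pool.Agent.Helper14.PK

open Metric Set Filter Topology
open Pool.Agent.Helper15.SR

variable {X : Type*} [NormedAddCommGroup X] [NormedSpace ℝ X]

/-- the sublevel set -/
def sub (Φ : X → ℝ) (ρ s : ℝ) : Set X := {x | x ∈ ball (0 : X) ρ ∧ Φ x ≤ s}

section

variable {Φ : X → ℝ} {ρ ρ' s : ℝ}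

theorem sub_convex (hconv : ConvexOn ℝ (ball (0 : X) ρ) Φ) : Convex ℝ (sub Φ ρ s) :=
  hconv.convex_le s

omit [NormedSpace ℝ X] in
theorem sub_nhds (hρ0 : 0 < ρ) (hs : 0 < s) (h0 : Φ 0 = 0)
    (hc : ContinuousOn Φ (ball (0 : X) ρ)) : sub Φ ρ s ∈ 𝓝 (0 : X) := by
  have h1 : ContinuousAt Φ 0 := hc.continuousAt (isOpen_ball.mem_nhds (mem_ball_self hρ0))
  have h2 : ∀ᶠ x in 𝓝 (0 : X), Φ x < s := by
    have := h1.tendsto.eventually_lt_const (show Φ 0 < s by rw [h0]; exact hs)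
    exact this
  filter_upwards [h2, isOpen_ball.mem_nhds (mem_ball_self hρ0)] with x hx hx'
  exact ⟨hx', hx.le⟩

omit [NormedSpace ℝ X] in
theorem sub_closed (hρ : ρ' < ρ) (hc : ContinuousOn Φ (ball (0 : X) ρ))
    (hbd : ∀ x ∈ ball (0 : X) ρ, Φ x ≤ s → ‖x‖ ≤ ρ') : IsClosed (sub Φ ρ s) := by
  have h1 : sub Φ ρ s = closedBall (0 : X) ρ' ∩ Φ ⁻¹' Iic s := by
    ext x
    constructor
    · rintro ⟨hx, hx'⟩
      exact ⟨by simpa using hbd x hx hx', hx'⟩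
    · rintro ⟨hx, hx'⟩
      refine ⟨?_, hx'⟩
      rw [mem_closedBall_zero_iff] at hx
      rw [mem_ball_zero_iff]
      exact lt_of_le_of_lt hx hρ
  rw [h1]
  refine ContinuousOn.preimage_isClosed_of_isClosed (hc.mono ?_) isClosed_closedBall isClosed_Iic
  intro x hx
  rw [mem_closedBall_zero_iff] at hx
  rw [mem_ball_zero_iff]
  exact lt_of_le_of_lt hx hρ

theorem level (hρ : ρ' < ρ) (hρ0 : 0 < ρ) (hs : 0 < s) (h0 : Φ 0 = 0)
    (hconv : ConvexOn ℝ (ball (0 : X) ρ) Φ)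
    (hc : ContinuousOn Φ (ball (0 : X) ρ))
    (hbd : ∀ x ∈ ball (0 : X) ρ, Φ x ≤ s → ‖x‖ ≤ ρ') {z : X}
    (hz : gauge (sub Φ ρ s) z = 1) : z ∈ ball (0 : X) ρ ∧ Φ z = s := by
  have h1 := (gauge_eq_one_iff_mem_frontier (sub_convex (s := s) hconv)
    (sub_nhds hρ0 hs h0 hc)).1 hz
  have h2 : z ∈ sub Φ ρ s := (sub_closed hρ hc hbd).frontier_subset h1
  refine ⟨h2.1, le_antisymm h2.2 ?_⟩
  by_contra hlt
  push Not at hlt
  have h3 : z ∈ interior (sub Φ ρ s) := by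
    rw [mem_interior_iff_mem_nhds]
    have hca : ContinuousAt Φ z := hc.continuousAt (isOpen_ball.mem_nhds h2.1)
    filter_upwards [hca.tendsto.eventually_lt_const hlt, isOpen_ball.mem_nhds h2.1] with x hx hx'
    exact ⟨hx', hx.le⟩
  exact h1.2 h3

/-- the derivative in the radial direction is positive -/
theorem radial (hρ0 : 0 < ρ) (h0 : Φ 0 = 0)
    (hconv : ConvexOn ℝ (ball (0 : X) ρ) Φ) {z : X} (hz : z ∈ ball (0 : X) ρ)
    (hd : DifferentiableAt ℝ Φ z) : Φ z ≤ fderiv ℝ Φ z z := by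
  have h1 : ConvexOn ℝ ((fun t : ℝ => t • z) ⁻¹' ball (0 : X) ρ) (fun t : ℝ => Φ (t • z)) := by
    exact hconv.comp_linearMap (LinearMap.toSpanSingleton ℝ X z)
  have h2 : HasDerivAt (fun t : ℝ => Φ (t • z)) (fderiv ℝ Φ z z) 1 := by
    have h3 : HasDerivAt (fun t : ℝ => t • z) z 1 := by
      simpa using (hasDerivAt_id (1 : ℝ)).smul_const z
    have h4 : HasFDerivAt Φ (fderiv ℝ Φ z) ((1 : ℝ) • z) := by
      rw [one_smul]; exact hd.hasFDerivAt
    exact h4.comp_hasDerivAt (1 : ℝ) h3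
  have h5 := h1.slope_le_of_hasDerivAt (x := 0) (y := 1)
    (by simpa using hρ0) (by simpa using hz) one_pos h2
  simpa [slope_def_field, h0] using h5

end

/-- The gauge of a sublevel set. -/
theorem gauge_norm [CompleteSpace X] (k : ℕ) (hk : 1 ≤ k) (Φ : X → ℝ) {ρ ρ' s : ℝ}
    (hρ0 : 0 < ρ') (hρ : ρ' < ρ) (hs : 0 < s) (h0 : Φ 0 = 0) (heven : ∀ x, Φ (-x) = Φ x)
    (hconv : ConvexOn ℝ (ball (0 : X) ρ) Φ)
    (hsm : ContDiffOn ℝ (k : WithTop ℕ∞) Φ (ball (0 : X) ρ))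
    (hbd : ∀ x ∈ ball (0 : X) ρ, Φ x ≤ s → ‖x‖ ≤ ρ') :
    ∃ N : X → ℝ, SmoothNorm (k : WithTop ℕ∞) N := by
  have hρpos : 0 < ρ := hρ0.trans hρ
  have hc : ContinuousOn Φ (ball (0 : X) ρ) := hsm.continuousOn
  have hC := sub_convex (s := s) hconv
  have hN := sub_nhds hρpos hs h0 hc
  have habs : Absorbent ℝ (sub Φ ρ s) := absorbent_nhds_zero hN
  have hsub : sub Φ ρ s ⊆ closedBall (0 : X) ρ' := by
    rintro x ⟨hx, hx'⟩
    simpa using hbd x hx hx'
  have hsym : ∀ x ∈ sub Φ ρ s, -x ∈ sub Φ ρ s := by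
    rintro x ⟨hx, hx'⟩
    exact ⟨by simpa using hx, by rw [heven]; exact hx'⟩
  obtain ⟨ε, hε, hεsub⟩ := Metric.mem_nhds_iff.1 hN
  have hlow : ∀ x : X, ρ'⁻¹ * ‖x‖ ≤ gauge (sub Φ ρ s) x := by
    intro x
    have := le_gauge_of_subset_closedBall habs hρ0.le hsub (x := x)
    rwa [div_eq_inv_mul] at this
  have hgpos : ∀ x : X, x ≠ 0 → 0 < gauge (sub Φ ρ s) x := by
    intro x hx
    exact lt_of_lt_of_le (by have := norm_pos_iff.2 hx; positivity) (hlow x)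
  have hcg : Continuous (gauge (sub Φ ρ s)) := continuous_gauge hC hN
  refine ⟨gauge (sub Φ ρ s), fun x y => gauge_add_le hC habs x y, ?_, ⟨ρ'⁻¹, ε⁻¹, by positivity,
    fun x => ⟨hlow x, ?_⟩⟩, ?_⟩
  · intro t x
    have h1 : gauge (sub Φ ρ s) (|t| • x) = |t| * gauge (sub Φ ρ s) x := by
      rw [gauge_smul_of_nonneg (abs_nonneg t), smul_eq_mul]
    rcases abs_choice t with h | h
    · rw [h] at h1 ⊢
      exact h1
    · rw [h] at h1 ⊢
      rw [neg_smul, gauge_neg hsym] at h1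
      exact h1
  · have := mul_gauge_le_norm (x := x) hεsub
    rw [inv_mul_eq_div, le_div_iff₀ hε, mul_comm]
    exact this
  · intro x₁ hx₁
    refine ContDiffAt.contDiffWithinAt ?_
    have hx₁' : x₁ ≠ 0 := hx₁
    set g := gauge (sub Φ ρ s) with hg
    have hg1 : 0 < g x₁ := hgpos x₁ hx₁'
    set t₁ : ℝ := (g x₁)⁻¹ with ht₁
    have ht1 : 0 < t₁ := by positivity
    -- normalisation
    have hlev : ∀ x : X, x ≠ 0 → ((g x)⁻¹ • x) ∈ ball (0 : X) ρ ∧ Φ ((g x)⁻¹ • x) = s := by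
      intro x hx
      have hgx : 0 < g x := hgpos x hx
      refine level hρ hρpos hs h0 hconv hc hbd ?_
      rw [← hg]
      have : g ((g x)⁻¹ • x) = (g x)⁻¹ * g x := by
        rw [hg, gauge_smul_of_nonneg (inv_nonneg.2 hgx.le), smul_eq_mul]
      rw [this, inv_mul_cancel₀ hgx.ne']
    obtain ⟨hz1, hz2⟩ := hlev x₁ hx₁'
    rw [← ht₁] at hz1 hz2
    have hcd : ContDiffAt ℝ (k : WithTop ℕ∞) Φ (t₁ • x₁) :=
      hsm.contDiffAt (isOpen_ball.mem_nhds hz1)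
    have hk0 : (k : WithTop ℕ∞) ≠ 0 := by
      have : k ≠ 0 := by omega
      exact_mod_cast this
    have hcdF : ContDiffAt ℝ (k : WithTop ℕ∞) (fun v : X × ℝ => Φ (v.2 • v.1)) (x₁, t₁) := by
      have h1 : ContDiffAt ℝ (k : WithTop ℕ∞) (fun v : X × ℝ => v.2 • v.1) (x₁, t₁) :=
        contDiffAt_snd.smul contDiffAt_fst
      exact ContDiffAt.comp (x₁, t₁) (f := fun v : X × ℝ => v.2 • v.1) (g := Φ) hcd h1
    have hdiff : DifferentiableAt ℝ Φ (t₁ • x₁) := hcd.differentiableAt hk0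
    set a : ℝ := fderiv ℝ Φ (t₁ • x₁) x₁ with ha
    have hapos : 0 < a := by
      have h1 := radial hρpos h0 hconv hz1 hdiff
      rw [hz2, map_smul, smul_eq_mul] at h1
      have h2 : 0 < t₁ * a := lt_of_lt_of_le hs h1
      exact (pos_iff_pos_of_mul_pos h2).1 ht1
    have hinr : (fderiv ℝ (fun v : X × ℝ => Φ (v.2 • v.1)) (x₁, t₁) ∘L
        ContinuousLinearMap.inr ℝ X ℝ) = a • ContinuousLinearMap.id ℝ ℝ := by
      have h1 : HasFDerivAt (fun v : X × ℝ => Φ (v.2 • v.1))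
          (fderiv ℝ (fun v : X × ℝ => Φ (v.2 • v.1)) (x₁, t₁)) (x₁, t₁) :=
        (hcdF.differentiableAt hk0).hasFDerivAt
      have h2 : HasFDerivAt (fun t : ℝ => ((x₁, t) : X × ℝ)) (ContinuousLinearMap.inr ℝ X ℝ) t₁ := by
        exact (hasFDerivAt_const x₁ t₁).prodMk (hasFDerivAt_id (𝕜 := ℝ) t₁)
      have h3 := HasFDerivAt.comp t₁ (f := fun t : ℝ => ((x₁, t) : X × ℝ)) h1 h2
      have h4 : HasFDerivAt (fun t : ℝ => Φ (t • x₁)) (a • ContinuousLinearMap.id ℝ ℝ) t₁ := by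
        have h5 : HasDerivAt (fun t : ℝ => t • x₁) x₁ t₁ := by
          simpa using (hasDerivAt_id t₁).smul_const x₁
        have h6 := (hdiff.hasFDerivAt.comp_hasDerivAt t₁ h5).hasFDerivAt
        have h7 : ContinuousLinearMap.toSpanSingleton ℝ ((fderiv ℝ Φ (t₁ • x₁)) x₁) =
            a • ContinuousLinearMap.id ℝ ℝ := by
          ext
          simp [ha]
        rw [h7] at h6
        exact h6
      exact h3.unique h4
    have hinv : (fderiv ℝ (fun v : X × ℝ => Φ (v.2 • v.1)) (x₁, t₁) ∘L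
        ContinuousLinearMap.inr ℝ X ℝ).IsInvertible := by
      rw [hinr]
      exact ⟨ContinuousLinearEquiv.smulLeft (Units.mk0 a hapos.ne'), by
        ext; simp [Units.smul_def]⟩
    have hiff := hcdF.eventually_apply_eq_iff_implicitFunction hk0 hinv
    have himp := hcdF.contDiffAt_implicitFunction hk0 hinv
    set ψ := hcdF.implicitFunction hk0 hinv with hψ
    have htend : Tendsto (fun x : X => ((x, (g x)⁻¹) : X × ℝ)) (𝓝 x₁) (𝓝 (x₁, t₁)) := by
      refine Tendsto.prodMk_nhds tendsto_id ?_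
      exact (hcg.tendsto x₁).inv₀ hg1.ne'
    have hev : ∀ᶠ x in 𝓝 x₁, g x = (ψ x)⁻¹ := by
      filter_upwards [htend.eventually hiff, isOpen_ne.mem_nhds hx₁'] with x hx hxne
      have h1 := (hlev x hxne).2
      have h2 := hx.1 (by rw [h1, hz2])
      rw [h2, inv_inv]
    have hψ1 : ψ x₁ = t₁ := hcdF.implicitFunction_apply_self hk0 hinv
    refine ContDiffAt.congr_of_eventuallyEq ?_ hev
    exact himp.inv (by rw [hψ1]; exact ht1.ne')

end Pool.Agent.Helper14.PK
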