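import Pool.Agent.Helper47.PK.FB

/-! Project PK, piece PK-09e (backup): the quadratic form `6 η E x^2` on `FB π Λ`. -/

set_option autoImplicit false

namespace Pool.Agent.Helper14.PK

open Finset Pool.Agent.Helper47.PK

variable {Ω V : Type} [Fintype Ω] [Fintype V] [DecidableEq V] {r : ℕ} (π : Fin r → Ω → V)
  (Λ : ℕ)

theorem av_sq_le_norm_sq (x : FB π Λ) : av (fun ω => (x : Ω → ℝ) ω ^ 2) ≤ ‖x‖ ^ 2 := by
  have h1 := av_sq_le (fun ω => (x : Ω → ℝ) ω ^ 2)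
  have h2 := av_four_le_norm π Λ x
  have h3 : (fun ω => ((x : Ω → ℝ) ω ^ 2) ^ 2) = fun ω => (x : Ω → ℝ) ω ^ 4 := by
    funext ω; ring
  rw [h3] at h1
  have h4 : (av (fun ω => (x : Ω → ℝ) ω ^ 2)) ^ 2 ≤ (‖x‖ ^ 2) ^ 2 := by
    calc _ ≤ _ := h1
      _ ≤ _ := h2
      _ = _ := by ring
  exact (le_abs_self _).trans (abs_le_of_sq_le_sq h4 (sq_nonneg _))

theorem abs_av_mul_le (x y : FB π Λ) :
    |av (fun ω => (x : Ω → ℝ) ω * (y : Ω → ℝ) ω)| ≤ ‖x‖ * ‖y‖ := by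
  have h1 := av_mul_sq_le (x : Ω → ℝ) (y : Ω → ℝ)
  have h2 := av_sq_le_norm_sq π Λ x
  have h3 := av_sq_le_norm_sq π Λ y
  have h4 : 0 ≤ av (fun ω => (y : Ω → ℝ) ω ^ 2) := av_nonneg fun ω => sq_nonneg _
  have h5 : (av (fun ω => (x : Ω → ℝ) ω * (y : Ω → ℝ) ω)) ^ 2 ≤ (‖x‖ * ‖y‖) ^ 2 := by
    calc _ ≤ _ := h1
      _ ≤ ‖x‖ ^ 2 * ‖y‖ ^ 2 := mul_le_mul h2 h3 h4 (sq_nonneg _)
      _ = _ := by ring
  exact abs_le_of_sq_le_sq h5 (by positivity)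

/-- the bilinear form `6 η E x y` -/
noncomputable def quadForm (η : ℝ) : MultilinearMap ℝ (fun _ : Fin 2 => FB π Λ) ℝ :=
  ∑ ω : Ω, (6 * η / (Fintype.card Ω : ℝ)) •
    (MultilinearMap.mkPiAlgebra ℝ (Fin 2) ℝ).compLinearMap fun _ => (evl π Λ ω).toLinearMap

theorem quadForm_apply (η : ℝ) (m : Fin 2 → FB π Λ) :
    quadForm π Λ η m = 6 * η * av (fun ω => (m 0 : Ω → ℝ) ω * (m 1 : Ω → ℝ) ω) := by
  unfold quadForm av
  rw [_root_.sum_apply, mul_div_assoc', Finset.mul_sum, Finset.sum_div]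
  refine Finset.sum_congr rfl fun ω _ => ?_
  rw [_root_.smul_apply, MultilinearMap.compLinearMap_apply,
    MultilinearMap.mkPiAlgebra_apply, Fin.prod_univ_two]
  show 6 * η / (Fintype.card Ω : ℝ) * ((m 0 : Ω → ℝ) ω * (m 1 : Ω → ℝ) ω) = _
  ring

theorem exists_quad' {η : ℝ} (hη : 0 ≤ η) :
    ∃ M : ContinuousMultilinearMap ℝ (fun _ : Fin 2 => FB π Λ) ℝ,
      (∀ x : FB π Λ, 6 * η * av (fun ω => (x : Ω → ℝ) ω ^ 2) = M (fun _ => x)) ∧ ‖M‖ ≤ 6 * η := by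
  have hb : ∀ m : Fin 2 → FB π Λ, ‖quadForm π Λ η m‖ ≤ 6 * η * ∏ i, ‖m i‖ := by
    intro m
    rw [quadForm_apply, Fin.prod_univ_two, Real.norm_eq_abs, abs_mul,
      abs_of_nonneg (by positivity : (0:ℝ) ≤ 6 * η)]
    exact mul_le_mul_of_nonneg_left (abs_av_mul_le π Λ _ _) (by positivity)
  refine ⟨(quadForm π Λ η).mkContinuous (6 * η) hb, fun x => ?_,
    MultilinearMap.mkContinuous_norm_le _ (by positivity) hb⟩
  show _ = quadForm π Λ η (fun _ => x)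
  rw [quadForm_apply]
  congr 2; funext ω; ring

end Pool.Agent.Helper14.PK
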