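import Mathlib

/-! Taylor expansion of the second derivative along a line. -/

set_option autoImplicit false

namespace Pool.Agent.Helper14.PK

open Metric Set Filter Topology

/-- Taylor expansion for a chain of derivatives. -/
theorem taylor_chain (n : ℕ) : ∀ (g : ℕ → ℝ → ℝ) (C : ℝ),
    (∀ i < n, ∀ s ∈ Icc (0 : ℝ) 1, HasDerivAt (g i) (g (i + 1) s) s) →
    (∀ s ∈ Icc (0 : ℝ) 1, |g n s| ≤ C) →
    ∀ s ∈ Icc (0 : ℝ) 1,
      |g 0 s - ∑ i ∈ Finset.range n, ((i.factorial : ℝ))⁻¹ * g i 0 * s ^ i| ≤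
        C * ((n.factorial : ℝ))⁻¹ * s ^ n := by
  induction n with
  | zero =>
    intro g C _ hC s hs
    simpa using hC s hs
  | succ n ih =>
    intro g C hd hC
    have h1 := ih (fun i => g (i + 1)) C (fun i hi s hs => hd (i + 1) (by omega) s hs) hC
    have key := image_norm_le_of_norm_deriv_right_le_deriv_boundary
      (f := fun s => g 0 s - ∑ i ∈ Finset.range (n + 1), ((i.factorial : ℝ))⁻¹ * g i 0 * s ^ i)
      (f' := fun s => g 1 s - ∑ i ∈ Finset.range n, ((i.factorial : ℝ))⁻¹ * g (i + 1) 0 * s ^ i)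
      (a := 0) (b := 1)
      (B := fun s => C * (((n + 1).factorial : ℝ))⁻¹ * s ^ (n + 1))
      (B' := fun s => C * ((n.factorial : ℝ))⁻¹ * s ^ n)
    have hder : ∀ s ∈ Icc (0 : ℝ) 1, HasDerivAt
        (fun s => g 0 s - ∑ i ∈ Finset.range (n + 1), ((i.factorial : ℝ))⁻¹ * g i 0 * s ^ i)
        (g 1 s - ∑ i ∈ Finset.range n, ((i.factorial : ℝ))⁻¹ * g (i + 1) 0 * s ^ i) s := by
      intro s hs
      have h2 := hd 0 (by omega) s hs
      have h3 : HasDerivAt (fun s : ℝ => ∑ i ∈ Finset.range (n + 1),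
          ((i.factorial : ℝ))⁻¹ * g i 0 * s ^ i)
          (∑ i ∈ Finset.range n, ((i.factorial : ℝ))⁻¹ * g (i + 1) 0 * s ^ i) s := by
        have h4 : HasDerivAt (fun s : ℝ => ∑ i ∈ Finset.range (n + 1),
            ((i.factorial : ℝ))⁻¹ * g i 0 * s ^ i)
            (∑ i ∈ Finset.range (n + 1), ((i.factorial : ℝ))⁻¹ * g i 0 * (i * s ^ (i - 1))) s := by
          refine HasDerivAt.fun_sum fun i _ => ?_
          exact (hasDerivAt_pow i s).const_mul _
        have h5 : ∑ i ∈ Finset.range (n + 1), ((i.factorial : ℝ))⁻¹ * g i 0 * (i * s ^ (i - 1)) =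
            ∑ i ∈ Finset.range n, ((i.factorial : ℝ))⁻¹ * g (i + 1) 0 * s ^ i := by
          rw [Finset.sum_range_succ']
          simp only [Nat.cast_zero, zero_mul, mul_zero, add_zero]
          refine Finset.sum_congr rfl fun i _ => ?_
          rw [Nat.factorial_succ]
          push_cast
          have h6 : ((i.factorial : ℕ) : ℝ) ≠ 0 := by exact_mod_cast i.factorial_ne_zero
          have h7 : ((i : ℝ) + 1) ≠ 0 := by positivity
          field_simp
        rw [h5] at h4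
        exact h4
      exact h2.sub h3
    intro s hs
    refine key ?_ ?_ ?_ ?_ ?_ hs
    · exact fun s hs => (hder s hs).continuousAt.continuousWithinAt
    · intro s hs
      exact (hder s (Ico_subset_Icc_self hs)).hasDerivWithinAt
    · simp [Finset.sum_range_succ']
    · intro s
      have h4 := (hasDerivAt_pow (n + 1) s).const_mul (C * (((n + 1).factorial : ℝ))⁻¹)
      have h5 : C * (((n + 1).factorial : ℝ))⁻¹ * (((n + 1 : ℕ) : ℝ) * s ^ (n + 1 - 1)) =
          C * ((n.factorial : ℝ))⁻¹ * s ^ n := by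
        rw [Nat.factorial_succ]
        push_cast
        have h6 : ((n.factorial : ℕ) : ℝ) ≠ 0 := by exact_mod_cast n.factorial_ne_zero
        have h7 : ((n : ℝ) + 1) ≠ 0 := by positivity
        field_simp
      rw [h5] at h4
      exact h4
    · intro s hs
      exact h1 s (Ico_subset_Icc_self hs)

variable {X : Type*} [NormedAddCommGroup X] [NormedSpace ℝ X]

/-- `D^(i+2) f(x)[h, ..., h, v, v]` -/
noncomputable def D2 (f : X → ℝ) (x h v : X) (i : ℕ) : ℝ :=
  iteratedFDeriv ℝ (i + 2) f x (fun j : Fin (i + 2) => if (j : ℕ) < i then h else v)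

theorem D2_zero (f : X → ℝ) (x h v : X) :
    D2 f x h v 0 = iteratedFDeriv ℝ 2 f x (fun _ => v) := by
  simp [D2]

theorem D2_hasDerivAt {f : X → ℝ} {x₀ h v : X} {i : ℕ} {s : ℝ}
    (hf : ContDiffAt ℝ ((i + 3 : ℕ) : WithTop ℕ∞) f (x₀ + s • h)) :
    HasDerivAt (fun s : ℝ => D2 f (x₀ + s • h) h v i) (D2 f (x₀ + s • h) h v (i + 1)) s := by
  have h1 : DifferentiableAt ℝ (iteratedFDeriv ℝ (i + 2) f) (x₀ + s • h) := by
    refine hf.differentiableAt_iteratedFDeriv ?_
    exact_mod_cast (by omega : i + 2 < i + 3)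
  have h2 : HasDerivAt (fun s : ℝ => x₀ + s • h) h s := by
    simpa using ((hasDerivAt_id s).smul_const h).const_add x₀
  have h3 := h1.hasFDerivAt.comp_hasDerivAt s h2
  have h4 : HasDerivAt (fun s : ℝ => iteratedFDeriv ℝ (i + 2) f (x₀ + s • h)
      (fun j : Fin (i + 2) => if (j : ℕ) < i then h else v))
      ((fderiv ℝ (iteratedFDeriv ℝ (i + 2) f) (x₀ + s • h) h)
        (fun j : Fin (i + 2) => if (j : ℕ) < i then h else v)) s := by
    have h5 := (ContinuousMultilinearMap.apply ℝ (fun _ : Fin (i + 2) => X) ℝ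
      (fun j : Fin (i + 2) => if (j : ℕ) < i then h else v)).hasFDerivAt.comp_hasDerivAt s h3
    exact h5
  have h6 : (fderiv ℝ (iteratedFDeriv ℝ (i + 2) f) (x₀ + s • h) h)
        (fun j : Fin (i + 2) => if (j : ℕ) < i then h else v) =
      D2 f (x₀ + s • h) h v (i + 1) := by
    unfold D2
    rw [iteratedFDeriv_succ_apply_left]
    congr 1
    ext j
    simp only [Fin.tail, Fin.val_succ]
    congr 1
    simp
  rw [h6] at h4
  exact h4

theorem D2_le (f : X → ℝ) (x h v : X) (i : ℕ) :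
    |D2 f x h v i| ≤ ‖iteratedFDeriv ℝ (i + 2) f x‖ * ‖h‖ ^ i * ‖v‖ ^ 2 := by
  have h1 := (iteratedFDeriv ℝ (i + 2) f x).le_opNorm
    (fun j : Fin (i + 2) => if (j : ℕ) < i then h else v)
  have h2 : ∏ j : Fin (i + 2), ‖(if (j : ℕ) < i then h else v)‖ = ‖h‖ ^ i * ‖v‖ ^ 2 := by
    rw [Fin.prod_univ_castSucc, Fin.prod_univ_castSucc]
    have e1 : ∏ j : Fin i, ‖(if (((j.castSucc).castSucc : Fin (i + 2)) : ℕ) < i then h else v)‖ =
        ‖h‖ ^ i := by
      rw [Finset.prod_congr rfl (g := fun _ => ‖h‖)]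
      · simp
      · intro j _
        rw [if_pos (by simp)]
    rw [e1]
    simp
    ring
  unfold D2
  rw [h2, Real.norm_eq_abs] at h1
  linarith [h1, mul_assoc (‖iteratedFDeriv ℝ (i + 2) f x‖) (‖h‖ ^ i) (‖v‖ ^ 2)]

/-- Taylor expansion of the second derivative. -/
theorem taylor_two {f : X → ℝ} {x₀ : X} {r M : ℝ} {n : ℕ}
    (hf : ContDiffOn ℝ ((n + 2 : ℕ) : WithTop ℕ∞) f (ball x₀ r))
    (hM : ∀ x ∈ ball x₀ r, ‖iteratedFDeriv ℝ (n + 2) f x‖ ≤ M) {h : X} (hh : ‖h‖ < r) (v : X) :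
    |iteratedFDeriv ℝ 2 f (x₀ + h) (fun _ => v) -
        ∑ i ∈ Finset.range n, ((i.factorial : ℝ))⁻¹ * D2 f x₀ h v i| ≤
      M * ((n.factorial : ℝ))⁻¹ * ‖h‖ ^ n * ‖v‖ ^ 2 := by
  have hmem : ∀ s ∈ Icc (0 : ℝ) 1, x₀ + s • h ∈ ball x₀ r := by
    intro s hs
    rw [mem_ball, dist_eq_norm, add_sub_cancel_left, norm_smul, Real.norm_eq_abs,
      abs_of_nonneg hs.1]
    have : s * ‖h‖ ≤ 1 * ‖h‖ := mul_le_mul_of_nonneg_right hs.2 (norm_nonneg _)
    linarith
  have h1 := taylor_chain n (fun i s => D2 f (x₀ + s • h) h v i) (M * ‖h‖ ^ n * ‖v‖ ^ 2)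
    (fun i hi s hs => D2_hasDerivAt (((hf.contDiffAt (isOpen_ball.mem_nhds (hmem s hs))).of_le
      (by exact_mod_cast (by omega : i + 3 ≤ n + 2)))))
    (fun s hs => (D2_le _ _ _ _ _).trans (by
      have := hM _ (hmem s hs)
      gcongr)) 1 ⟨zero_le_one, le_refl _⟩
  simp only [one_smul, zero_smul, add_zero, one_pow, mul_one] at h1
  rw [D2_zero] at h1
  refine h1.trans (le_of_eq ?_)
  ring

/-- The second derivative of a convex function is nonnegative. -/
theorem second_nonneg {f : X → ℝ} (hc : ConvexOn ℝ univ f) {x : X}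
    (hf : ContDiffAt ℝ 2 f x) (v : X) : 0 ≤ iteratedFDeriv ℝ 2 f x (fun _ => v) := by
  -- differentiability near `x`
  have hev : ∀ᶠ y in 𝓝 x, ContDiffAt ℝ 2 f y := hf.eventually (by simp)
  have hline : Tendsto (fun t : ℝ => x + t • v) (𝓝 0) (𝓝 x) := by
    have : Continuous (fun t : ℝ => x + t • v) := by fun_prop
    simpa using this.tendsto 0
  obtain ⟨δ, hδ, hδ'⟩ := Metric.eventually_nhds_iff_ball.1 (hline.eventually hev)
  have hφc : ConvexOn ℝ (ball (0 : ℝ) δ) (fun t : ℝ => f (x + t • v)) := by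
    have h1 := hc.comp_affineMap (AffineMap.lineMap x (x + v))
    refine (h1.subset (subset_univ _) (convex_ball _ _)).congr ?_
    intro t _
    simp only [Function.comp, AffineMap.lineMap_apply, vsub_eq_sub, add_sub_cancel_left,
      vadd_eq_add]
    rw [add_comm]
  have hφd : ∀ t ∈ ball (0 : ℝ) δ, HasDerivAt (fun t : ℝ => f (x + t • v))
      (fderiv ℝ f (x + t • v) v) t := by
    intro t ht
    have h1 : DifferentiableAt ℝ f (x + t • v) := (hδ' t ht).differentiableAt (by norm_num)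
    have h2 : HasDerivAt (fun t : ℝ => x + t • v) v t := by
      simpa using ((hasDerivAt_id t).smul_const v).const_add x
    exact h1.hasFDerivAt.comp_hasDerivAt t h2
  have hmono : MonotoneOn (deriv (fun t : ℝ => f (x + t • v))) (ball (0 : ℝ) δ) :=
    hφc.monotoneOn_deriv fun t ht => (hφd t ht).differentiableAt
  have hder2 : HasDerivAt (fun t : ℝ => fderiv ℝ f (x + t • v) v)
      (iteratedFDeriv ℝ 2 f x (fun _ => v)) 0 := by
    have h1 : DifferentiableAt ℝ (fderiv ℝ f) (x + (0 : ℝ) • v) := by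
      rw [zero_smul, add_zero]
      have := hf.fderiv_right (m := 1) (by norm_num)
      exact this.differentiableAt (by norm_num)
    have h2 : HasDerivAt (fun t : ℝ => x + t • v) v 0 := by
      simpa using ((hasDerivAt_id (0 : ℝ)).smul_const v).const_add x
    have h3 := h1.hasFDerivAt.comp_hasDerivAt (0 : ℝ) h2
    have h4 := (ContinuousLinearMap.apply ℝ ℝ v).hasFDerivAt.comp_hasDerivAt (0 : ℝ) h3
    have h5 : (ContinuousLinearMap.apply ℝ ℝ v) ((fderiv ℝ (fderiv ℝ f) (x + (0 : ℝ) • v)) v) =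
        iteratedFDeriv ℝ 2 f x (fun _ => v) := by
      rw [iteratedFDeriv_two_apply, zero_smul, add_zero]
      simp
    rw [h5] at h4
    exact h4
  by_contra hneg
  push Not at hneg
  have h6 := (hasDerivAt_iff_tendsto_slope.1 hder2).eventually_lt_const hneg
  have h7 : ∀ᶠ t in 𝓝[>] (0 : ℝ), slope (fun t : ℝ => fderiv ℝ f (x + t • v) v) 0 t < 0 :=
    h6.filter_mono (nhdsWithin_mono _ fun t ht => ne_of_gt ht)
  have h8 : ∀ᶠ t in 𝓝[>] (0 : ℝ), t ∈ ball (0 : ℝ) δ :=
    nhdsWithin_le_nhds (ball_mem_nhds _ hδ)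
  obtain ⟨t, ⟨ht1, ht2⟩, ht3⟩ := ((h7.and h8).and self_mem_nhdsWithin).exists
  have ht3' : (0 : ℝ) < t := ht3
  have h9 := hmono (mem_ball_self hδ) ht2 ht3'.le
  rw [(hφd 0 (mem_ball_self hδ)).deriv, (hφd t ht2).deriv] at h9
  rw [slope_def_field, div_lt_iff₀ (by linarith)] at ht1
  linarith

end Pool.Agent.Helper14.PK
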